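import Pool.Agent.H5.OR.Targets

/-!
# Row AM of the board org_modules

The tree of a pushout of groups.
-/

set_option autoImplicit false

open scoped Classical

namespace ORg

theorem pf_AM (AG : T_AG) (AI : T_AI) (AT : T_AT) (AV : T_AV) : T_AM := by
  intro H A B G _ _ _ _ f g a b hPO hf hg
  obtain ⟨ha, hb⟩ := AI H A B G f g a b hPO hf hg
  have hgen := AG H A B G f g a b hPO
  obtain ⟨τ, h1, h2, h3⟩ := AT H A B G f g a b hPO
  have hCA : (a.comp f).range ≤ a.range := by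
    rintro _ ⟨h, rfl⟩
    exact ⟨f h, rfl⟩
  have hCB : (a.comp f).range ≤ b.range := by
    rintro _ ⟨h, rfl⟩
    exact ⟨g h, (hPO.comm h).symm⟩
  obtain ⟨hinf, S, r, v, hS⟩ := AV G a.range b.range (a.comp f).range τ hgen hCA hCB h1
    (by
      rintro x _ ⟨y, rfl⟩
      exact h2 x y)
    (by
      rintro x _ ⟨y, rfl⟩
      exact h3 x y)
  refine ⟨ha, hb, ?_, S, r, v, hS⟩
  intro x y hxy
  have hx : a x ∈ (a.comp f).range := by
    rw [← hinf]
    exact ⟨⟨x, rfl⟩, y, hxy.symm⟩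
  obtain ⟨h, hh⟩ := hx
  have hh' : a (f h) = a x := hh
  refine ⟨h, ha hh'.symm, hb ?_⟩
  rw [← hPO.comm h, hh', hxy]

end ORg
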