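import Pool.Agent.H5.OR.Targets

/-!
# Row FF of the board org_modules

A free factor of a free group is malnormal.
-/

set_option autoImplicit false

open scoped Classical

namespace ORg

theorem pf_FF (AP : T_AP) : T_FF := by
  intro X1 X2 x y z hy hxyz
  obtain ⟨S, r, b, hS, hfix⟩ := AP X1 X2
  have hy1 : (fl y : FreeGroup (X1 ⊕ X2)) ≠ 1 := by
    intro h
    apply hy
    apply FreeGroup.map_injective (Sum.inl_injective : Function.Injective (Sum.inl : X1 → X1 ⊕ X2))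
    rw [map_one]
    exact h
  have hz1 : (fl z : FreeGroup (X1 ⊕ X2)) ≠ 1 := by
    rw [← hxyz]
    intro h
    apply hy1
    rwa [mul_inv_eq_one, mul_eq_left] at h
  have h1 : (fl z : FreeGroup (X1 ⊕ X2)) • r = r := (hS.stA _).2 ⟨z, rfl⟩
  have h2 : (fl y : FreeGroup (X1 ⊕ X2)) • r = r := (hS.stA _).2 ⟨y, rfl⟩
  have h3 : (fl z : FreeGroup (X1 ⊕ X2)) • (x • r) = x • r := by
    rw [← hxyz, mul_smul, mul_smul, inv_smul_smul, h2]
  have h4 : x • r = r := hfix _ hz1 _ _ h3 h1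
  obtain ⟨x1, hx1⟩ := (hS.stA x).1 h4
  exact ⟨x1, hx1.symm⟩

end ORg
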